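import Mathlib

set_option autoImplicit false

namespace Pool.Agent.U324.Feyn

/-- one step of the comparison -/
lemma step_lemma {N L s s' t f t' f' : ℝ}
    (h1 : (N - L) * (f' + f) = (N - 2 * L) * t)
    (h2 : (L + 1) * t' = (N - 1 - 2 * L) * f' - L * t)
    (hf : 0 < f) (ht : s * f ≤ t) (hs : 0 < s) (hL : 0 ≤ L) (hNL : 0 < N - L)
    (hN2L : 0 < N - 2 * L)
    (hR : 0 < (N - 2 * L) * s - (N - L))
    (hW : 0 ≤ N - 1 - 2 * L - (L + 1) * s')
    (hG : 0 ≤ ((N - 1 - 2 * L - (L + 1) * s') * (N - 2 * L) - L * (N - L)) * s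
      - (N - 1 - 2 * L - (L + 1) * s') * (N - L)) :
    0 < f' ∧ s' * f' ≤ t' := by
  have hf' : 0 < f' := by
    have : 0 < (N - L) * f' := by
      have h3 : (N - L) * f' = (N - 2 * L) * t - (N - L) * f := by linarith
      have h4 : (N - 2 * L) * (s * f) ≤ (N - 2 * L) * t := mul_le_mul_of_nonneg_left ht hN2L.le
      have h5 : 0 < ((N - 2 * L) * s - (N - L)) * f := mul_pos hR hf
      nlinarith
    exact (mul_pos_iff_of_pos_left hNL).mp this
  refine ⟨hf', ?_⟩
  set W := N - 1 - 2 * L - (L + 1) * s' with hWdef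
  have hB : 0 ≤ W * (N - 2 * L) - L * (N - L) := by
    have h3 : 0 ≤ (W * (N - 2 * L) - L * (N - L)) * s := by
      have := mul_nonneg hW hNL.le
      linarith
    exact nonneg_of_mul_nonneg_left h3 hs
  have h6 : 0 ≤ (N - L) * ((L + 1) * (t' - s' * f')) := by
    have h7 : (N - L) * ((L + 1) * (t' - s' * f'))
        = t * (W * (N - 2 * L) - L * (N - L)) - W * (N - L) * f := by
      have h8 : (L + 1) * (t' - s' * f') = W * f' - L * t := by
        rw [hWdef]; linarith
      rw [h8]
      have h9 : (N - L) * f' = (N - 2 * L) * t - (N - L) * f := by linarith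
      calc (N - L) * (W * f' - L * t) = W * ((N - L) * f') - L * (N - L) * t := by ring
        _ = W * ((N - 2 * L) * t - (N - L) * f) - L * (N - L) * t := by rw [h9]
        _ = _ := by ring
    rw [h7]
    have h10 : s * f * (W * (N - 2 * L) - L * (N - L)) ≤ t * (W * (N - 2 * L) - L * (N - L)) :=
      mul_le_mul_of_nonneg_right ht hB
    have h11 : 0 ≤ f * (((W) * (N - 2 * L) - L * (N - L)) * s - W * (N - L)) :=
      mul_nonneg hf.le hG
    nlinarith
  have h12 : 0 ≤ (L + 1) * (t' - s' * f') := nonneg_of_mul_nonneg_right h6 hNL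
  have h13 : 0 ≤ t' - s' * f' := nonneg_of_mul_nonneg_right h12 (by linarith)
  linarith

/-- growth step -/
lemma growth_lemma {N L s t f t' f' : ℝ}
    (h1 : (N - L) * (f' + f) = (N - 2 * L) * t)
    (h2 : (L + 1) * t' = (N - 1 - 2 * L) * f' - L * t)
    (hf : 0 < f) (ht : s * f ≤ t) (hs : 0 < s) (hL : 0 ≤ L) (hNL : 0 < N - L)
    (hN2L : 1 ≤ N - 2 * L)
    (hA : 0 < (N - 2 * L) * s - 2 * (N - L))
    (hB : 0 ≤ ((N - 1 - 2 * L) * (N - 2 * L) - (2 * L + 1) * (N - L)) * s
      - (N - 1 - 2 * L) * (N - L)) :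
    t ^ 2 + f ^ 2 < t' ^ 2 + f' ^ 2 := by
  have hff : f < f' := by
    have : 0 < (N - L) * (f' - f) := by
      have h3 : (N - L) * (f' - f) = (N - 2 * L) * t - 2 * (N - L) * f := by linarith
      have h4 : (N - 2 * L) * (s * f) ≤ (N - 2 * L) * t :=
        mul_le_mul_of_nonneg_left ht (by linarith)
      have h5 : 0 < ((N - 2 * L) * s - 2 * (N - L)) * f := mul_pos hA hf
      nlinarith
    have := (mul_pos_iff_of_pos_left hNL).mp this
    linarith
  have htpos : 0 < t := lt_of_lt_of_le (mul_pos hs hf) ht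
  have hC : 0 ≤ (N - 1 - 2 * L) * (N - 2 * L) - (2 * L + 1) * (N - L) := by
    have h3 : 0 ≤ ((N - 1 - 2 * L) * (N - 2 * L) - (2 * L + 1) * (N - L)) * s := by
      have := mul_nonneg (show 0 ≤ N - 1 - 2 * L by linarith) hNL.le
      linarith
    exact nonneg_of_mul_nonneg_left h3 hs
  have htt : t ≤ t' := by
    have h6 : 0 ≤ (N - L) * ((L + 1) * (t' - t)) := by
      have h7 : (N - L) * ((L + 1) * (t' - t))
          = t * ((N - 1 - 2 * L) * (N - 2 * L) - (2 * L + 1) * (N - L))
            - (N - 1 - 2 * L) * (N - L) * f := by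
        have h8 : (L + 1) * (t' - t) = (N - 1 - 2 * L) * f' - (2 * L + 1) * t := by linarith
        have h9 : (N - L) * f' = (N - 2 * L) * t - (N - L) * f := by linarith
        calc (N - L) * ((L + 1) * (t' - t)) = (N - L) * ((N - 1 - 2 * L) * f' - (2 * L + 1) * t) := by
              rw [h8]
          _ = (N - 1 - 2 * L) * ((N - L) * f') - (2 * L + 1) * (N - L) * t := by ring
          _ = (N - 1 - 2 * L) * ((N - 2 * L) * t - (N - L) * f) - (2 * L + 1) * (N - L) * t := by
              rw [h9]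
          _ = _ := by ring
      rw [h7]
      have h10 := mul_le_mul_of_nonneg_right ht hC
      have h11 := mul_nonneg hf.le hB
      nlinarith
    have h12 : 0 ≤ (L + 1) * (t' - t) := nonneg_of_mul_nonneg_right h6 hNL
    have h13 : 0 ≤ t' - t := nonneg_of_mul_nonneg_right h12 (by linarith)
    linarith
  nlinarith

end Pool.Agent.U324.Feyn
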