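import Mathlib
import Pool.Agent.U324.Feyn.Ric

set_option autoImplicit false

namespace Pool.Agent.U324.Feyn

lemma G_eq (N L s s' : ℝ) :
    ((N - 1 - 2 * L - (L + 1) * s') * (N - 2 * L) - L * (N - L)) * s
      - (N - 1 - 2 * L - (L + 1) * s') * (N - L)
    = (N - 2 * L) * (N * (s - 1) - L * (s ^ 2 + 2 * s - 1))
      + ((N - 2 * L) * s - (N - L)) * ((L + 1) * (s - s') - (1 + s)) := by
  ring

lemma q_eq {a : ℝ} (ha : a ^ 2 = 2) (N e ε : ℝ) :
    N * ((1 + a + ε) - 1) - ((2 - a) / 4 * N + e) * ((1 + a + ε) ^ 2 + 2 * (1 + a + ε) - 1)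
    = -((2 - a) / 4) * (N * ε ^ 2) - e * (4 + 4 * a + (4 + 2 * a) * ε + ε ^ 2) := by
  linear_combination (N * a / 4 + N * ε / 2 - e + N / 2) * ha

/-- the hypotheses on the constants -/
structure Par (a k K N : ℝ) : Prop where
  ha : a ^ 2 = 2
  ha1 : 1.414 < a
  ha2 : a < 1.415
  hK : 1 ≤ K
  hk : 2000 * K ≤ k
  hN : N = k ^ 3

lemma Par.hk2 {a k K N : ℝ} (P : Par a k K N) : 2000 ≤ k := by
  have := P.hk; have := P.hK; linarith

lemma Par.hNk {a k K N : ℝ} (P : Par a k K N) : 1000000 * k ≤ N := by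
  have hk2 := P.hk2
  rw [P.hN]
  have h1 : (1000000 : ℝ) ≤ k ^ 2 := by nlinarith
  have h2 : k * 1000000 ≤ k * k ^ 2 := mul_le_mul_of_nonneg_left h1 (by linarith)
  calc 1000000 * k = k * 1000000 := by ring
    _ ≤ k * k ^ 2 := h2
    _ = k ^ 3 := by ring

lemma case1 {a k K N e ε s s' L : ℝ} (P : Par a k K N) (hεd : ε = 1 / (4 * k))
    (hs : s = 1 + a + ε)
    (hs' : s' ≤ s) (hL : L = (2 - a) / 4 * N + e) (hL0 : 0 ≤ L) (he : e ≤ -(k / 16)) :
    0 < N - L ∧ 0 < N - 2 * L ∧ 0 < (N - 2 * L) * s - (N - L) ∧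
    0 ≤ N - 1 - 2 * L - (L + 1) * s' ∧
    0 ≤ ((N - 1 - 2 * L - (L + 1) * s') * (N - 2 * L) - L * (N - L)) * s
      - (N - 1 - 2 * L - (L + 1) * s') * (N - L) := by
  have hk2 := P.hk2
  have hNk := P.hNk
  have ha := P.ha
  have ha1 := P.ha1
  have ha2 := P.ha2
  have hkpos : 0 < k := by linarith
  have hNpos : 0 < N := by linarith
  have hεpos : 0 < ε := by rw [hεd]; positivity
  have hεs : ε ≤ 1 / 1000 := by
    rw [hεd]
    apply one_div_le_one_div_of_le (by norm_num)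
    linarith
  have hNε : N * ε ^ 2 = k / 16 := by
    rw [P.hN, hεd]; field_simp; norm_num
  have hLle2 : L ≤ 0.1465 * N := by
    have : (2 - a) / 4 * N ≤ 0.1465 * N := mul_le_mul_of_nonneg_right (by linarith) hNpos.le
    linarith
  have h1 : 0 < N - 2 * L := by linarith
  have h2 : 0 < N - L := by linarith
  have hs1 : 2.414 < s := by rw [hs]; linarith
  have hs2 : s < 2.42 := by rw [hs]; linarith
  have hR : 0 < (N - 2 * L) * s - (N - L) := by
    have : (N - 2 * L) * 2.414 ≤ (N - 2 * L) * s := mul_le_mul_of_nonneg_left hs1.le h1.le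
    linarith
  have hW : 0 ≤ N - 1 - 2 * L - (L + 1) * s' := by
    have : (L + 1) * s' ≤ (L + 1) * 2.42 := by
      apply mul_le_mul_of_nonneg_left _ (by linarith)
      linarith
    linarith
  refine ⟨h2, h1, hR, hW, ?_⟩
  rw [G_eq]
  have hq := q_eq ha N e ε
  rw [← hL, ← hs, hNε] at hq
  have hq8 : 8 ≤ N * (s - 1) - L * (s ^ 2 + 2 * s - 1) := by
    rw [hq]
    have h3 : (9 : ℝ) ≤ 4 + 4 * a + (4 + 2 * a) * ε + ε ^ 2 := by
      have : 0 ≤ (4 + 2 * a) * ε := by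
        apply mul_nonneg _ hεpos.le
        linarith
      have := sq_nonneg ε
      linarith
    have h4 : (k / 16) * 9 ≤ (-e) * (4 + 4 * a + (4 + 2 * a) * ε + ε ^ 2) := by
      apply mul_le_mul _ h3 (by norm_num) (by linarith)
      linarith
    have h5 : (2 - a) / 4 * (k / 16) ≤ 1 * (k / 16) :=
      mul_le_mul_of_nonneg_right (by linarith) (by linarith)
    linarith
  have h5 : (N - 2 * L) * s - (N - L) ≤ (N - 2 * L) * (s - 1) := by
    have : (N - 2 * L) * (s - 1) = (N - 2 * L) * s - (N - 2 * L) := by ring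
    linarith
  have h6 : 0 ≤ (L + 1) * (s - s') := mul_nonneg (by linarith) (by linarith)
  have h7 : ((N - 2 * L) * s - (N - L)) * (1 + s) ≤ (N - 2 * L) * (s - 1) * (1 + s) :=
    mul_le_mul_of_nonneg_right h5 (by linarith)
  have h8 : (s - 1) * (1 + s) ≤ 8 := by
    have : (s - 1) * (1 + s) ≤ 1.42 * 3.42 :=
      mul_le_mul (by linarith) (by linarith) (by linarith) (by norm_num)
    linarith
  have h9 : 0 ≤ ((N - 2 * L) * s - (N - L)) * ((L + 1) * (s - s')) := mul_nonneg hR.le h6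
  have h10 : (N - 2 * L) * ((s - 1) * (1 + s)) ≤ (N - 2 * L) * 8 :=
    mul_le_mul_of_nonneg_left h8 h1.le
  have h11 : (N - 2 * L) * 8 ≤ (N - 2 * L) * (N * (s - 1) - L * (s ^ 2 + 2 * s - 1)) :=
    mul_le_mul_of_nonneg_left hq8 h1.le
  have h12 : (N - 2 * L) * (s - 1) * (1 + s) = (N - 2 * L) * ((s - 1) * (1 + s)) := by ring
  have h13 : ((N - 2 * L) * s - (N - L)) * ((L + 1) * (s - s') - (1 + s))
      = ((N - 2 * L) * s - (N - L)) * ((L + 1) * (s - s'))
        - ((N - 2 * L) * s - (N - L)) * (1 + s) := by ring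
  rw [h13]
  linarith

lemma case2 {a k K N e ε s s' L : ℝ} (P : Par a k K N) (hs : s = 1 + a + ε)
    (hε0 : 0 ≤ ε) (hε1 : ε ≤ 1 / (4 * k))
    (hs' : s' = s - 1 / (4 * k ^ 2)) (hL : L = (2 - a) / 4 * N + e)
    (he : -(k / 16) ≤ e) (he2 : e ≤ K) :
    0 < N - L ∧ 0 < N - 2 * L ∧ 0 < (N - 2 * L) * s - (N - L) ∧
    0 ≤ N - 1 - 2 * L - (L + 1) * s' ∧
    0 ≤ ((N - 1 - 2 * L - (L + 1) * s') * (N - 2 * L) - L * (N - L)) * s
      - (N - 1 - 2 * L - (L + 1) * s') * (N - L) := by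
  have hk2 := P.hk2
  have hNk := P.hNk
  have ha := P.ha
  have ha1 := P.ha1
  have ha2 := P.ha2
  have hK := P.hK
  have hk := P.hk
  have hkpos : 0 < k := by linarith
  have hNpos : 0 < N := by linarith
  have hεs : ε ≤ 1 / 1000 := by
    refine hε1.trans ?_
    apply one_div_le_one_div_of_le (by norm_num)
    linarith
  have hNε : N * ε ^ 2 ≤ k / 16 := by
    have h0 : ε ^ 2 ≤ (1 / (4 * k)) ^ 2 := pow_le_pow_left₀ hε0 hε1 2
    have h1 : N * (1 / (4 * k)) ^ 2 = k / 16 := by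
      rw [P.hN]; field_simp; norm_num
    rw [← h1]
    exact mul_le_mul_of_nonneg_left h0 hNpos.le
  have hNε0 : 0 ≤ N * ε ^ 2 := mul_nonneg hNpos.le (sq_nonneg _)
  have hl1 : (2 - a) / 4 * N ≤ 0.1465 * N := mul_le_mul_of_nonneg_right (by linarith) hNpos.le
  have hl2 : 0.14625 * N ≤ (2 - a) / 4 * N := mul_le_mul_of_nonneg_right (by linarith) hNpos.le
  have hLle2 : L ≤ 0.1466 * N := by rw [hL]; linarith
  have hLge2 : 0.146 * N ≤ L := by rw [hL]; linarith
  have h1 : 0.7 * N ≤ N - 2 * L := by linarith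
  have h1' : N - 2 * L ≤ N := by linarith
  have h2 : 0 < N - L := by linarith
  have hs1 : 2.414 < s := by rw [hs]; linarith
  have hs2 : s < 2.42 := by rw [hs]; linarith
  have hR : 0.8 * N ≤ (N - 2 * L) * s - (N - L) := by
    have : (N - 2 * L) * 2.414 ≤ (N - 2 * L) * s :=
      mul_le_mul_of_nonneg_left hs1.le (by linarith)
    linarith
  have hDpos : 0 < 1 / (4 * k ^ 2) := by positivity
  have hs's : s' ≤ s := by rw [hs']; linarith
  have hW : 0 ≤ N - 1 - 2 * L - (L + 1) * s' := by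
    have : (L + 1) * s' ≤ (L + 1) * 2.42 := by
      apply mul_le_mul_of_nonneg_left _ (by linarith)
      linarith
    linarith
  refine ⟨h2, by linarith, by linarith, hW, ?_⟩
  rw [G_eq]
  have hq := q_eq ha N e ε
  rw [← hL, ← hs] at hq
  have hqlow : -(k / 50) ≤ N * (s - 1) - L * (s ^ 2 + 2 * s - 1) := by
    rw [hq]
    have h4a : (4 + 2 * a) * ε ≤ 7 * (1 / 1000) :=
      mul_le_mul (by linarith) hεs hε0 (by norm_num)
    have h4b : ε ^ 2 ≤ (1 / 1000) ^ 2 := pow_le_pow_left₀ hε0 hεs 2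
    have h4c : 0 ≤ (4 + 2 * a) * ε := mul_nonneg (by linarith) hε0
    have h3 : 4 + 4 * a + (4 + 2 * a) * ε + ε ^ 2 ≤ 10 := by
      norm_num at h4b
      linarith
    have h3' : 0 ≤ 4 + 4 * a + (4 + 2 * a) * ε + ε ^ 2 := by
      have := sq_nonneg ε
      linarith
    have h4 : e * (4 + 4 * a + (4 + 2 * a) * ε + ε ^ 2) ≤ K * 10 := by
      calc e * (4 + 4 * a + (4 + 2 * a) * ε + ε ^ 2)
          ≤ K * (4 + 4 * a + (4 + 2 * a) * ε + ε ^ 2) := mul_le_mul_of_nonneg_right he2 h3'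
        _ ≤ K * 10 := mul_le_mul_of_nonneg_left h3 (by linarith)
    have h5 : (2 - a) / 4 * (N * ε ^ 2) ≤ 0.1465 * (k / 16) :=
      mul_le_mul (by linarith) hNε hNε0 (by norm_num)
    linarith
  have hD : 0.036 * k ≤ (L + 1) * (s - s') := by
    have e1 : s - s' = 1 / (4 * k ^ 2) := by rw [hs']; ring
    rw [e1]
    have h3 : 0.144 * k ^ 3 ≤ L + 1 := by
      rw [← P.hN]; linarith
    calc 0.036 * k = (0.144 * k ^ 3) * (1 / (4 * k ^ 2)) := by field_simp; norm_num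
      _ ≤ (L + 1) * (1 / (4 * k ^ 2)) := mul_le_mul_of_nonneg_right h3 hDpos.le
  have h6 : 0.03 * k ≤ (L + 1) * (s - s') - (1 + s) := by linarith
  have h7 : 0.8 * N * (0.03 * k) ≤ ((N - 2 * L) * s - (N - L)) * ((L + 1) * (s - s') - (1 + s)) :=
    mul_le_mul hR h6 (by positivity) (by linarith)
  have h9 : (N - 2 * L) * (-(k / 50)) ≤ (N - 2 * L) * (N * (s - 1) - L * (s ^ 2 + 2 * s - 1)) :=
    mul_le_mul_of_nonneg_left hqlow (by linarith)
  have h10 : (N - 2 * L) * (k / 50) ≤ N * (k / 50) :=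
    mul_le_mul_of_nonneg_right h1' (by positivity)
  have h12 : (N - 2 * L) * (-(k / 50)) = -((N - 2 * L) * (k / 50)) := by ring
  have h13 : 0 ≤ N * k := mul_nonneg hNpos.le hkpos.le
  have h14 : 0.8 * N * (0.03 * k) = 0.024 * (N * k) := by ring
  have h15 : N * (k / 50) = 0.02 * (N * k) := by ring
  linarith

lemma case3A {a k K N e η s L : ℝ} (P : Par a k K N) (hηd : η = 1 / (8 * k))
    (hs : s = 1 + a + η)
    (hL : L = (2 - a) / 4 * N + e) (he2 : e ≤ K) :
    0 < (N - 2 * L) * s - 2 * (N - L) := by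
  have hk2 := P.hk2
  have ha := P.ha
  have ha1 := P.ha1
  have ha2 := P.ha2
  have hK := P.hK
  have hk := P.hk
  have hkpos : 0 < k := by linarith
  have hηpos : 0 < η := by rw [hηd]; positivity
  have hηs : η ≤ 1 / 1000 := by
    rw [hηd]
    apply one_div_le_one_div_of_le (by norm_num)
    linarith
  have hNη : N * η = k ^ 2 / 8 := by
    rw [P.hN, hηd]; field_simp
  have e1 : (N - 2 * L) * s - 2 * (N - L) = a / 2 * (N * η) - 2 * (e * (s - 1)) := by
    rw [hL, hs]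
    linear_combination (N / 2) * ha
  rw [e1, hNη]
  have hs1 : 2.414 < s := by rw [hs]; linarith
  have hs2 : s < 2.42 := by rw [hs]; linarith
  have h3 : e * (s - 1) ≤ K * 1.42 := by
    calc e * (s - 1) ≤ K * (s - 1) := mul_le_mul_of_nonneg_right he2 (by linarith)
      _ ≤ K * 1.42 := mul_le_mul_of_nonneg_left (by linarith) (by linarith)
  have h4 : 2000 * K * 1 ≤ k * k := mul_le_mul hk (by linarith) (by norm_num) hkpos.le
  have h5 : 0.7 * (k ^ 2 / 8) ≤ a / 2 * (k ^ 2 / 8) :=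
    mul_le_mul_of_nonneg_right (by linarith) (by positivity)
  have h6 : k ^ 2 = k * k := by ring
  rw [h6] at h5 ⊢
  linarith

lemma case3B_eq {a : ℝ} (ha : a ^ 2 = 2) (N e η : ℝ) :
    (((N - 1 - 2 * ((2 - a) / 4 * N + e)) * (N - 2 * ((2 - a) / 4 * N + e))
        - (2 * ((2 - a) / 4 * N + e) + 1) * (N - ((2 - a) / 4 * N + e))) * (1 + a + η)
      - (N - 1 - 2 * ((2 - a) / 4 * N + e)) * (N - ((2 - a) / 4 * N + e)))
      = N * (N * η) / 4 + (-3 * a * (1 + a + η) + (1 + a)) * (N * e)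
        + (6 * (1 + a + η) - 2) * e ^ 2
        - (1 + a + η) * ((N - 2 * ((2 - a) / 4 * N + e)) + (N - ((2 - a) / 4 * N + e)))
        + (N - ((2 - a) / 4 * N + e)) := by
  linear_combination ((3 / 8) * N ^ 2 * (1 + a + η) - N ^ 2 / 8) * ha

lemma case3B {a k K N e η s L : ℝ} (P : Par a k K N) (hηd : η = 1 / (8 * k))
    (hs : s = 1 + a + η)
    (hL : L = (2 - a) / 4 * N + e) (he : -K ≤ e) (he2 : e ≤ K) :
    0 ≤ ((N - 1 - 2 * L) * (N - 2 * L) - (2 * L + 1) * (N - L)) * s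
      - (N - 1 - 2 * L) * (N - L) := by
  have hk2 := P.hk2
  have hNk := P.hNk
  have ha := P.ha
  have ha1 := P.ha1
  have ha2 := P.ha2
  have hK := P.hK
  have hk := P.hk
  have hkpos : 0 < k := by linarith
  have hNpos : 0 < N := by linarith
  have hηpos : 0 < η := by rw [hηd]; positivity
  have hηs : η ≤ 1 / 1000 := by
    rw [hηd]
    apply one_div_le_one_div_of_le (by norm_num)
    linarith
  have hNη : N * η = k ^ 2 / 8 := by
    rw [P.hN, hηd]; field_simp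
  have e1 := case3B_eq ha N e η
  rw [← hL, ← hs, hNη] at e1
  rw [e1]
  have hs1 : 2.414 < s := by rw [hs]; linarith
  have hs2 : s < 2.42 := by rw [hs]; linarith
  have h5 : |(-3 * a * s + (1 + a))| ≤ 9 := by
    have h5a : a * s ≤ 1.415 * 2.42 := mul_le_mul ha2.le hs2.le (by linarith) (by norm_num)
    have h5b : 1.414 * 2.414 ≤ a * s := mul_le_mul ha1.le hs1.le (by norm_num) (by linarith)
    have h5c : -3 * a * s = -3 * (a * s) := by ring
    rw [abs_le, h5c]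
    constructor <;> linarith
  have h6 : |e| ≤ K := abs_le.mpr ⟨he, he2⟩
  have h7 : N * |e| ≤ N * K := mul_le_mul_of_nonneg_left h6 hNpos.le
  have h4 : |(-3 * a * s + (1 + a)) * (N * e)| ≤ 9 * (N * K) := by
    rw [abs_mul, abs_mul, abs_of_pos hNpos]
    exact mul_le_mul h5 h7 (mul_nonneg hNpos.le (abs_nonneg _)) (by norm_num)
  have h3 := (abs_le.mp h4).1
  have h8 : 0 ≤ (6 * s - 2) * e ^ 2 := mul_nonneg (by linarith) (sq_nonneg _)
  have hl2 : 0.14625 * N ≤ (2 - a) / 4 * N := mul_le_mul_of_nonneg_right (by linarith) hNpos.le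
  have hl1 : (2 - a) / 4 * N ≤ 0.1465 * N := mul_le_mul_of_nonneg_right (by linarith) hNpos.le
  have hLpos : 0 ≤ L := by rw [hL]; linarith
  have hLle : L ≤ 0.1466 * N := by rw [hL]; linarith
  have h9 : s * ((N - 2 * L) + (N - L)) ≤ 2.42 * (2 * N) :=
    mul_le_mul hs2.le (by linarith) (by linarith) (by norm_num)
  have h11 : N * (9 * K + 5) ≤ N * (k ^ 2 / 32) := by
    apply mul_le_mul_of_nonneg_left _ hNpos.le
    have h4 : 2000 * K * 1 ≤ k * k := mul_le_mul hk (by linarith) (by norm_num) hkpos.le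
    have h6 : k ^ 2 = k * k := by ring
    rw [h6]
    linarith
  have h12 : N * (9 * K + 5) = 9 * (N * K) + 5 * N := by ring
  have h13 : N * (k ^ 2 / 8) / 4 = N * (k ^ 2 / 32) := by ring
  rw [h13]
  linarith

end Pool.Agent.U324.Feyn
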