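import Mathlib

set_option autoImplicit false

open Finset

namespace Pool.Agent.U324.Feyn

/-- number of turns -/
def cnt {n : ℕ} (s : Fin (n + 1) → Bool) : ℕ :=
  (Finset.univ.filter (fun i : Fin n => s i.castSucc ≠ s i.succ)).card

/-- end point -/
def tot {n : ℕ} (s : Fin (n + 1) → Bool) : ℤ := ∑ i, (if s i then (1 : ℤ) else -1)

/-- amplitude of the paths with prescribed last step -/
noncomputable def A (n : ℕ) (y : ℤ) (b : Bool) : ℂ :=
  ∑ s : Fin (n + 1) → Bool,
    if s 0 = true ∧ tot s = y ∧ s (Fin.last n) = b then (-Complex.I) ^ cnt s else 0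

lemma cnt_snoc {n : ℕ} (s : Fin (n + 1) → Bool) (b : Bool) :
    cnt (Fin.snoc (α := fun _ => Bool) s b : Fin (n + 2) → Bool)
      = cnt s + (if s (Fin.last n) ≠ b then 1 else 0) := by
  unfold cnt
  rw [Finset.card_filter, Finset.card_filter, Fin.sum_univ_castSucc]
  congr 1
  · refine Finset.sum_congr rfl fun i _ => ?_
    have h1 : (Fin.snoc (α := fun _ => Bool) s b : Fin (n + 2) → Bool) (i.castSucc.castSucc)
        = s i.castSucc := by
      exact Fin.snoc_castSucc (α := fun _ => Bool) _ _ _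
    have h2 : (Fin.snoc (α := fun _ => Bool) s b : Fin (n + 2) → Bool) (i.castSucc.succ)
        = s i.succ := by
      rw [Fin.succ_castSucc]
      exact Fin.snoc_castSucc (α := fun _ => Bool) _ _ _
    rw [h1, h2]
  · have h1 : (Fin.snoc (α := fun _ => Bool) s b : Fin (n + 2) → Bool) ((Fin.last n).castSucc)
        = s (Fin.last n) := Fin.snoc_castSucc (α := fun _ => Bool) _ _ _
    have h2 : (Fin.snoc (α := fun _ => Bool) s b : Fin (n + 2) → Bool) ((Fin.last n).succ)
        = b := by
      rw [Fin.succ_last]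
      exact Fin.snoc_last (α := fun _ => Bool) _ _
    rw [h1, h2]

lemma tot_snoc {n : ℕ} (s : Fin (n + 1) → Bool) (b : Bool) :
    tot (Fin.snoc (α := fun _ => Bool) s b : Fin (n + 2) → Bool)
      = tot s + (if b then 1 else -1) := by
  unfold tot
  rw [Fin.sum_univ_castSucc]
  congr 1
  · refine Finset.sum_congr rfl fun i _ => ?_
    rw [Fin.snoc_castSucc (α := fun _ => Bool)]
  · rw [Fin.snoc_last (α := fun _ => Bool)]

/-- append a last step -/
def sn {n : ℕ} (s : Fin (n + 1) → Bool) (b : Bool) : Fin (n + 2) → Bool :=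
  Fin.snoc (α := fun _ => Bool) s b

lemma sn_zero {n : ℕ} (s : Fin (n + 1) → Bool) (b : Bool) : sn s b 0 = s 0 := by
  have : (0 : Fin (n + 2)) = (0 : Fin (n + 1)).castSucc := rfl
  unfold sn
  rw [this]
  exact Fin.snoc_castSucc (α := fun _ => Bool) _ _ _

lemma sn_last {n : ℕ} (s : Fin (n + 1) → Bool) (b : Bool) : sn s b (Fin.last (n + 1)) = b :=
  Fin.snoc_last (α := fun _ => Bool) _ _

lemma cnt_sn {n : ℕ} (s : Fin (n + 1) → Bool) (b : Bool) :
    cnt (sn s b) = cnt s + (if s (Fin.last n) ≠ b then 1 else 0) := cnt_snoc s b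

lemma tot_sn {n : ℕ} (s : Fin (n + 1) → Bool) (b : Bool) :
    tot (sn s b) = tot s + (if b then 1 else -1) := tot_snoc s b

lemma sum_sn {n : ℕ} (F : (Fin (n + 2) → Bool) → ℂ) :
    ∑ s', F s' = ∑ b : Bool, ∑ s : Fin (n + 1) → Bool, F (sn s b) := by
  rw [← Equiv.sum_comp (Fin.snocEquiv (fun _ : Fin (n + 2) => Bool)), Fintype.sum_prod_type]
  rfl

lemma A_succ (n : ℕ) (y : ℤ) (b : Bool) :
    A (n + 1) y b = ∑ b' : Bool,
      (if b' ≠ b then -Complex.I else 1) * A n (y - (if b then 1 else -1)) b' := by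
  unfold A
  rw [sum_sn]
  simp only [sn_zero, sn_last, cnt_sn, tot_sn]
  rw [Finset.sum_eq_single b]
  · simp only [Finset.mul_sum]
    rw [Finset.sum_comm]
    refine Finset.sum_congr rfl fun s _ => ?_
    rw [Finset.sum_eq_single (s (Fin.last n))]
    · by_cases hc : (s 0 = true ∧ tot s = y - (if b then 1 else -1))
      · have e1 : (s 0 = true ∧ tot s + (if b = true then 1 else -1) = y ∧ True) :=
          ⟨hc.1, by linarith [hc.2], trivial⟩
        have e2 : (s 0 = true ∧ tot s = y - (if b = true then 1 else -1) ∧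
          s (Fin.last n) = s (Fin.last n)) := ⟨hc.1, hc.2, rfl⟩
        rw [if_pos e1, if_pos e2]
        by_cases hb : s (Fin.last n) ≠ b
        · rw [if_pos hb, if_pos hb, pow_add, pow_one, mul_comm]
        · rw [if_neg hb, if_neg hb, add_zero, one_mul]
      · have e1 : ¬ (s 0 = true ∧ tot s + (if b = true then 1 else -1) = y ∧ True) :=
          fun h => hc ⟨h.1, by linarith [h.2.1]⟩
        have e2 : ¬ (s 0 = true ∧ tot s = y - (if b = true then 1 else -1) ∧
          s (Fin.last n) = s (Fin.last n)) := fun h => hc ⟨h.1, h.2.1⟩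
        rw [if_neg e1, if_neg e2, mul_zero]
    · intro b' _ hb'
      rw [if_neg (c := s 0 = true ∧ (tot s = y - if b = true then 1 else -1) ∧
        s (Fin.last n) = b') (fun h => hb' h.2.2.symm), mul_zero]
    · intro h; exact absurd (Finset.mem_univ _) h
  · intro b' _ hb'
    refine Finset.sum_eq_zero fun s _ => ?_
    rw [if_neg (fun h => hb' h.2.2)]
  · intro h; exact absurd (Finset.mem_univ _) h

lemma A_succ_true (n : ℕ) (y : ℤ) :
    A (n + 1) y true = A n (y - 1) true - Complex.I * A n (y - 1) false := by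
  rw [A_succ]
  simp
  ring

lemma A_succ_false (n : ℕ) (y : ℤ) :
    A (n + 1) y false = A n (y + 1) false - Complex.I * A n (y + 1) true := by
  rw [A_succ]
  simp
  ring

/-- support -/
lemma tot_form {n : ℕ} (s : Fin (n + 1) → Bool) (h0 : s 0 = true) :
    ∃ p q : ℕ, p + q = n ∧ tot s = 1 + (p : ℤ) - q := by
  refine ⟨(Finset.univ.filter (fun i : Fin n => s i.succ = true)).card,
    (Finset.univ.filter (fun i : Fin n => ¬ s i.succ = true)).card, ?_, ?_⟩
  · rw [Finset.card_filter_add_card_filter_not]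
    simp
  · unfold tot
    rw [Fin.sum_univ_succ, h0]
    simp only [if_true]
    have : ∀ i : Fin n, (if s i.succ = true then (1 : ℤ) else -1)
        = (if s i.succ = true then 1 else 0) - (if ¬ s i.succ = true then 1 else 0) := by
      intro i; by_cases h : s i.succ = true <;> simp [h]
    rw [Finset.sum_congr rfl fun i _ => this i, Finset.sum_sub_distrib, Finset.card_filter,
      Finset.card_filter]
    push_cast
    ring

lemma A_eq_zero_of_lt {n : ℕ} {y : ℤ} (b : Bool) (hy : y < 1 - n) : A n y b = 0 := by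
  unfold A
  refine Finset.sum_eq_zero fun s _ => ?_
  rw [if_neg]
  rintro ⟨h0, h1, -⟩
  obtain ⟨p, q, hpq, ht⟩ := tot_form s h0
  omega

lemma A_eq_zero_of_gt {n : ℕ} {y : ℤ} (b : Bool) (hy : (n : ℤ) + 1 < y) : A n y b = 0 := by
  unfold A
  refine Finset.sum_eq_zero fun s _ => ?_
  rw [if_neg]
  rintro ⟨h0, h1, -⟩
  obtain ⟨p, q, hpq, ht⟩ := tot_form s h0
  omega

/-- the pair `(T, f)` -/
def W : ℕ → ℕ → ℤ × ℤ
  | 0, 0 => (1, 0)
  | 0, q + 1 => (0, (W 0 q).2 + (W 0 q).1)
  | p + 1, 0 => ((W p 0).1 - (W p 0).2, 0)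
  | p + 1, q + 1 => ((W p (q + 1)).1 - (W p (q + 1)).2, (W (p + 1) q).2 + (W (p + 1) q).1)
termination_by p q => p + q

lemma W_zero_zero : W 0 0 = (1, 0) := by rw [W]

lemma W_fst_succ (p q : ℕ) : (W (p + 1) q).1 = (W p q).1 - (W p q).2 := by
  cases q with
  | zero => rw [W]
  | succ q => rw [W]

lemma W_snd_succ (p q : ℕ) : (W p (q + 1)).2 = (W p q).2 + (W p q).1 := by
  cases p with
  | zero => rw [W]
  | succ p => rw [W]

lemma W_fst_zero (q : ℕ) : (W 0 (q + 1)).1 = 0 := by rw [W]

lemma W_snd_zero (p : ℕ) : (W p 0).2 = 0 := by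
  cases p with
  | zero => rw [W]
  | succ p => rw [W]

lemma A_zero_true : A 0 1 true = 1 := by
  unfold A
  rw [Finset.sum_eq_single (fun _ => true)]
  · have h1 : cnt (n := 0) (fun _ => true) = 0 := by simp [cnt]
    have h2 : tot (n := 0) (fun _ => true) = 1 := by simp [tot]
    rw [if_pos ⟨rfl, h2, rfl⟩, h1, pow_zero]
  · intro s _ hs
    rw [if_neg]
    rintro ⟨h0, -, -⟩
    apply hs
    funext i
    rw [Fin.fin_one_eq_zero i]
    exact h0
  · intro h; exact absurd (Finset.mem_univ _) h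

lemma A_zero_false (y : ℤ) : A 0 y false = 0 := by
  unfold A
  refine Finset.sum_eq_zero fun s _ => ?_
  rw [if_neg]
  rintro ⟨h0, -, h1⟩
  have : (Fin.last 0) = (0 : Fin 1) := rfl
  rw [this, h0] at h1
  exact absurd h1 (by simp)

theorem A_eq_W : ∀ (n p q : ℕ), p + q = n →
    A n (1 + (p : ℤ) - q) true = ((W p q).1 : ℂ) ∧
    A n (1 + (p : ℤ) - q) false = -Complex.I * ((W p q).2 : ℂ) := by
  intro n
  induction n with
  | zero =>
    intro p q h
    have hp : p = 0 := by omega
    have hq : q = 0 := by omega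
    subst hp hq
    constructor
    · rw [W_zero_zero]
      simpa using A_zero_true
    · rw [W_zero_zero, A_zero_false]
      simp
  | succ n ih =>
    intro p q h
    constructor
    · cases p with
      | zero =>
        cases q with
        | zero => omega
        | succ q =>
          rw [A_succ_true, W_fst_zero]
          rw [A_eq_zero_of_lt true (by push_cast; omega), A_eq_zero_of_lt false (by push_cast; omega)]
          simp
      | succ p =>
        have h1 := ih p q (by omega)
        have e : (1 + ((p + 1 : ℕ) : ℤ) - q - 1) = 1 + (p : ℤ) - q := by push_cast; ring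
        rw [A_succ_true, e, h1.1, h1.2, W_fst_succ]
        push_cast
        have hI : Complex.I * (-Complex.I * ((W p q).2 : ℂ)) = ((W p q).2 : ℂ) := by
          rw [← mul_assoc]
          simp
        rw [hI]
    · cases q with
      | zero =>
        rw [A_succ_false, W_snd_zero]
        rw [A_eq_zero_of_gt false (by push_cast; omega), A_eq_zero_of_gt true (by push_cast; omega)]
        simp
      | succ q =>
        have h1 := ih p q (by omega)
        have e : (1 + (p : ℤ) - ((q + 1 : ℕ) : ℤ) + 1) = 1 + (p : ℤ) - q := by push_cast; ring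
        rw [A_succ_false, e, h1.1, h1.2, W_snd_succ]
        push_cast
        ring

/-- the total amplitude of the frozen statement -/
noncomputable def amp (n : ℕ) (y : ℤ) : ℂ :=
  ∑ s ∈ Finset.univ.filter
      (fun s : Fin (n+1) → Bool =>
        s 0 = true ∧ ∑ i, (if s i then (1:ℤ) else -1) = y),
    (-Complex.I) ^ ((Finset.univ.filter
      (fun i : Fin n => s i.castSucc ≠ s i.succ)).card)

lemma amp_eq (n : ℕ) (y : ℤ) : amp n y = A n y true + A n y false := by
  unfold amp A
  rw [Finset.sum_filter, ← Finset.sum_add_distrib]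
  refine Finset.sum_congr rfl fun s _ => ?_
  change (if s 0 = true ∧ tot s = y then (-Complex.I) ^ cnt s else 0) = _
  by_cases h : s 0 = true ∧ tot s = y
  · rw [if_pos h]
    cases hb : s (Fin.last n)
    · rw [if_neg (by simp), if_pos ⟨h.1, h.2, rfl⟩, zero_add]
    · rw [if_pos ⟨h.1, h.2, rfl⟩, if_neg (by simp), add_zero]
  · rw [if_neg h, if_neg (fun h' => h ⟨h'.1, h'.2.1⟩), if_neg (fun h' => h ⟨h'.1, h'.2.1⟩),
      add_zero]

lemma amp_norm_sq (n p q : ℕ) (h : p + q = n) :
    ‖amp n (1 + (p : ℤ) - q)‖ ^ 2 = ((W p q).1 : ℝ) ^ 2 + ((W p q).2 : ℝ) ^ 2 := by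
  obtain ⟨h1, h2⟩ := A_eq_W n p q h
  rw [amp_eq, h1, h2, ← Complex.normSq_eq_norm_sq, Complex.normSq_apply]
  simp
  ring

lemma amp_form (n : ℕ) (y : ℤ) (hy : amp n y ≠ 0) :
    ∃ p q : ℕ, p + q = n ∧ y = 1 + (p : ℤ) - q := by
  unfold amp at hy
  obtain ⟨s, hs, -⟩ := Finset.exists_ne_zero_of_sum_ne_zero hy
  rw [Finset.mem_filter] at hs
  obtain ⟨p, q, hpq, ht⟩ := tot_form s hs.2.1
  exact ⟨p, q, hpq, by rw [← ht]; exact hs.2.2.symm⟩

end Pool.Agent.U324.Feyn
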