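import Mathlib
import Pool.Agent.U324.Feyn.Paths

set_option autoImplicit false

namespace Pool.Agent.U324.Feyn

/-- the two contiguity relations -/
theorem XY : ∀ (n m l : ℕ), m + l = n →
    ((l : ℤ) + 1) * (W m (l + 1)).1 = (2 * l - m) * (W m l).1 - m * (W m l).2 ∧
    ((m : ℤ) + 1) * (W (m + 1) l).2 = (2 * m + 2 - l) * (W m l).2 + l * (W m l).1 := by
  intro n
  induction n with
  | zero =>
    intro m l h
    have hm : m = 0 := by omega
    have hl : l = 0 := by omega
    subst hm hl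
    simp [W_fst_zero, W_snd_zero, W_zero_zero]
  | succ n ih =>
    intro m l h
    constructor
    · cases m with
      | zero =>
        cases l with
        | zero => omega
        | succ l =>
          rw [W_fst_zero, W_fst_zero]
          simp
      | succ m =>
        obtain ⟨hX, hY⟩ := ih m l (by omega)
        rw [W_fst_succ m (l + 1), W_fst_succ m l, W_snd_succ m l]
        push_cast
        linear_combination hX + hY
    · cases l with
      | zero =>
        rw [W_snd_zero, W_snd_zero]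
        simp
      | succ l =>
        obtain ⟨hX, hY⟩ := ih m l (by omega)
        rw [W_snd_succ (m + 1) l, W_fst_succ m l, W_snd_succ m l]
        push_cast
        linear_combination hY - hX

/-- horizontal relations between `(m + 1, l)` and `(m, l + 1)` -/
theorem horiz (m l : ℕ) :
    ((l : ℤ) + 1) * (W m (l + 1)).1 = l * (W (m + 1) l).1 - ((m : ℤ) - l) * (W m (l + 1)).2 ∧
    ((m : ℤ) + 1) * (W m (l + 1)).2 = (m + 1) * (W (m + 1) l).2
      + ((m : ℤ) + 1 - l) * (W (m + 1) l).1 := by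
  obtain ⟨hX, hY⟩ := XY (m + l) m l rfl
  rw [W_fst_succ m l, W_snd_succ m l]
  constructor
  · linear_combination hX
  · linear_combination -hY

/-- the sequences of the fixed time level -/
noncomputable def tau (n l : ℕ) : ℝ := (-1) ^ l * ((W (n - l) l).1 : ℝ)

noncomputable def phi (n l : ℕ) : ℝ := -((-1) ^ l * ((W (n - l) l).2 : ℝ))

lemma tau_phi_rec (n l : ℕ) (h : l + 1 ≤ n) :
    ((n : ℝ) - l) * (phi n (l + 1) + phi n l) = (n - 2 * l) * tau n l ∧
    ((l : ℝ) + 1) * tau n (l + 1) = (n - 1 - 2 * l) * phi n (l + 1) - l * tau n l := by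
  obtain ⟨m, rfl⟩ : ∃ m, n = m + 1 + l := ⟨n - 1 - l, by omega⟩
  have e1 : m + 1 + l - l = m + 1 := by omega
  have e2 : m + 1 + l - (l + 1) = m := by omega
  obtain ⟨hX, hY⟩ := horiz m l
  have hX' : ((l : ℝ) + 1) * ((W m (l + 1)).1 : ℝ)
      = l * ((W (m + 1) l).1 : ℝ) - ((m : ℝ) - l) * ((W m (l + 1)).2 : ℝ) := by
    exact_mod_cast hX
  have hY' : ((m : ℝ) + 1) * ((W m (l + 1)).2 : ℝ) = (m + 1) * ((W (m + 1) l).2 : ℝ)
      + ((m : ℝ) + 1 - l) * ((W (m + 1) l).1 : ℝ) := by
    exact_mod_cast hY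
  unfold tau phi
  rw [e1, e2]
  push_cast
  constructor
  · rw [pow_succ]
    linear_combination ((-1 : ℝ) ^ l) * hY'
  · rw [pow_succ]
    linear_combination (-(-1 : ℝ) ^ l) * hX'

lemma phi_one (n : ℕ) (h : 1 ≤ n) : phi n 1 = 1 ∧ tau n 1 = n - 1 := by
  have hT : ∀ p, (W p 0).1 = 1 := by
    intro p
    induction p with
    | zero => rw [W_zero_zero]
    | succ p ih => rw [W_fst_succ, ih, W_snd_zero]; simp
  have h0 : phi n 0 = 0 := by
    unfold phi
    rw [W_snd_zero]; simp
  have h0' : tau n 0 = 1 := by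
    unfold tau
    rw [hT]; simp
  obtain ⟨h1, h2⟩ := tau_phi_rec n 0 (by omega)
  rw [h0, h0'] at h1
  have hn : (n : ℝ) ≠ 0 := by
    have : (1 : ℝ) ≤ n := by exact_mod_cast h
    positivity
  simp only [Nat.cast_zero, sub_zero, zero_add, add_zero, mul_zero, mul_one] at h1
  have h3 : phi n 1 = 1 := by
    have : (n : ℝ) * phi n 1 = n * 1 := by linarith
    exact mul_left_cancel₀ hn this
  refine ⟨h3, ?_⟩
  simp only [Nat.cast_zero, zero_add, mul_zero, sub_zero, zero_mul, h3, mul_one, one_mul] at h2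
  exact h2

lemma amp_sq (n l : ℕ) (h : l ≤ n) :
    ‖amp n ((n : ℤ) + 1 - 2 * l)‖ ^ 2 = tau n l ^ 2 + phi n l ^ 2 := by
  have h1 := amp_norm_sq n (n - l) l (by omega)
  have e : (1 + ((n - l : ℕ) : ℤ) - l) = (n : ℤ) + 1 - 2 * l := by
    push_cast [Nat.cast_sub h]; ring
  rw [e] at h1
  rw [h1]
  unfold tau phi
  have h2 : ((-1 : ℝ) ^ l) ^ 2 = 1 := by
    rw [← pow_mul, mul_comm, pow_mul]; simp
  rw [mul_pow, neg_sq, mul_pow, h2]
  ring

end Pool.Agent.U324.Feyn
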