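import Mathlib
import Pool.Agent.U324.Feyn.Rec
import Pool.Agent.U324.Feyn.Cases

set_option autoImplicit false

namespace Pool.Agent.U324.Feyn

/-- lower comparison function -/
noncomputable def sig (a k e : ℝ) : ℝ :=
  1 + a + 1 / (4 * k) - (1 / (4 * k ^ 2)) * max 0 (k / 16 + e)

theorem main_ind {a k K : ℝ} {n : ℕ} (P : Par a k K n) : ∀ l : ℕ, 1 ≤ l →
    (l : ℝ) - (2 - a) / 4 * n ≤ K →
    0 < phi n l ∧ sig a k ((l : ℝ) - (2 - a) / 4 * n) * phi n l ≤ tau n l := by
  have hk2 := P.hk2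
  have hNk := P.hNk
  have ha1 := P.ha1
  have ha2 := P.ha2
  have hK := P.hK
  have hkK := P.hk
  have hkpos : 0 < k := by linarith
  have hNpos : (0 : ℝ) < n := by linarith
  have hDpos : 0 < 1 / (4 * k ^ 2) := by positivity
  have hDle : 1 / (4 * k ^ 2) ≤ 1 := by
    rw [div_le_one (by positivity)]
    have h6 : k ^ 2 = k * k := by ring
    have : 1 * 1 ≤ k * k := mul_le_mul (by linarith) (by linarith) (by norm_num) (by linarith)
    rw [h6]; linarith
  have hεs : 1 / (4 * k) ≤ 1 / 1000 := by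
    apply one_div_le_one_div_of_le (by norm_num)
    linarith
  have hεpos : 0 < 1 / (4 * k) := by positivity
  have hl1 : (2 - a) / 4 * (n : ℝ) ≤ 0.1465 * n :=
    mul_le_mul_of_nonneg_right (by linarith) hNpos.le
  intro l hl
  induction l, hl using Nat.le_induction with
  | base =>
    intro _
    have hn1 : 1 ≤ n := by
      have : (1 : ℝ) ≤ n := by linarith
      exact_mod_cast this
    obtain ⟨h1, h2⟩ := phi_one n hn1
    rw [h1, h2]
    refine ⟨one_pos, ?_⟩
    rw [mul_one]
    unfold sig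
    have : 0 ≤ (1 / (4 * k ^ 2)) * max 0 (k / 16 + (((1 : ℕ) : ℝ) - (2 - a) / 4 * n)) :=
      mul_nonneg hDpos.le (le_max_left _ _)
    linarith
  | succ l hl ih =>
    intro he
    have hel : (l : ℝ) - (2 - a) / 4 * n ≤ K - 1 := by
      push_cast at he; linarith
    obtain ⟨hf, ht⟩ := ih (by linarith)
    set e : ℝ := (l : ℝ) - (2 - a) / 4 * n with hedef
    have he' : (((l + 1 : ℕ) : ℝ) - (2 - a) / 4 * n) = e + 1 := by
      rw [hedef]; push_cast; ring
    rw [he']
    have hLeq : (l : ℝ) = (2 - a) / 4 * n + e := by rw [hedef]; ring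
    have hL0 : (0 : ℝ) ≤ l := Nat.cast_nonneg l
    have hln : l + 1 ≤ n := by
      have h1 : (l : ℝ) + 1 ≤ n := by linarith
      exact_mod_cast h1
    obtain ⟨r1, r2⟩ := tau_phi_rec n l hln
    rcases le_or_gt e (-(k / 16)) with hc | hc
    · have hs : sig a k e = 1 + a + 1 / (4 * k) := by
        unfold sig
        rw [max_eq_left (by linarith)]
        ring
      have hs' : sig a k (e + 1) ≤ sig a k e := by
        rw [hs]
        unfold sig
        have : 0 ≤ (1 / (4 * k ^ 2)) * max 0 (k / 16 + (e + 1)) :=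
          mul_nonneg hDpos.le (le_max_left _ _)
        linarith
      obtain ⟨c1, c2, c3, c4, c5⟩ := case1 P rfl hs hs' hLeq hL0 hc
      exact step_lemma r1 r2 hf ht (by rw [hs]; linarith) hL0 c1 c2 c3 c4 c5
    · have hs : sig a k e = 1 + a + (1 / (4 * k) - (1 / (4 * k ^ 2)) * (k / 16 + e)) := by
        unfold sig
        rw [max_eq_right (by linarith)]
        ring
      have hs' : sig a k (e + 1) = sig a k e - 1 / (4 * k ^ 2) := by
        rw [hs]
        unfold sig
        rw [max_eq_right (by linarith)]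
        ring
      have hb1 : (1 / (4 * k ^ 2)) * (k / 16 + e) ≤ 1 / (32 * k) := by
        have h1 : (1 / (4 * k ^ 2)) * (k / 16 + e) ≤ (1 / (4 * k ^ 2)) * (k / 8) :=
          mul_le_mul_of_nonneg_left (by linarith) hDpos.le
        have h2 : (1 / (4 * k ^ 2)) * (k / 8) = 1 / (32 * k) := by field_simp; norm_num
        linarith
      have hb2 : 0 ≤ (1 / (4 * k ^ 2)) * (k / 16 + e) := mul_nonneg hDpos.le (by linarith)
      have hb3 : 1 / (32 * k) ≤ 1 / (4 * k) := by
        apply one_div_le_one_div_of_le (by positivity)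
        linarith
      obtain ⟨c1, c2, c3, c4, c5⟩ := case2 P hs (by linarith) (by linarith) hs' hLeq hc.le
        (by linarith)
      exact step_lemma r1 r2 hf ht (by rw [hs]; linarith) hL0 c1 c2 c3 c4 c5

theorem grow {a k K : ℝ} {n : ℕ} (P : Par a k K n) (l : ℕ)
    (he1 : -K ≤ (l : ℝ) - (2 - a) / 4 * n) (he2 : (l : ℝ) - (2 - a) / 4 * n ≤ K) :
    l + 1 ≤ n ∧ tau n l ^ 2 + phi n l ^ 2 < tau n (l + 1) ^ 2 + phi n (l + 1) ^ 2 := by
  have hk2 := P.hk2
  have hNk := P.hNk
  have ha1 := P.ha1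
  have ha2 := P.ha2
  have hK := P.hK
  have hkK := P.hk
  have hkpos : 0 < k := by linarith
  have hNpos : (0 : ℝ) < n := by linarith
  have hDpos : 0 < 1 / (4 * k ^ 2) := by positivity
  have hl1 : (2 - a) / 4 * (n : ℝ) ≤ 0.1465 * n :=
    mul_le_mul_of_nonneg_right (by linarith) hNpos.le
  have hl2 : 0.14625 * (n : ℝ) ≤ (2 - a) / 4 * n :=
    mul_le_mul_of_nonneg_right (by linarith) hNpos.le
  have hl : 1 ≤ l := by
    have : (1 : ℝ) ≤ l := by linarith
    exact_mod_cast this
  have hln : l + 1 ≤ n := by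
    have h1 : (l : ℝ) + 1 ≤ n := by linarith
    exact_mod_cast h1
  refine ⟨hln, ?_⟩
  obtain ⟨hf, ht⟩ := main_ind P l hl he2
  set e : ℝ := (l : ℝ) - (2 - a) / 4 * n with hedef
  have hLeq : (l : ℝ) = (2 - a) / 4 * n + e := by rw [hedef]; ring
  have hL0 : (0 : ℝ) ≤ l := Nat.cast_nonneg l
  obtain ⟨r1, r2⟩ := tau_phi_rec n l hln
  have hs : 1 + a + 1 / (8 * k) ≤ sig a k e := by
    unfold sig
    have h0 : max 0 (k / 16 + e) ≤ k / 8 := max_le (by linarith) (by linarith)
    have h1 : (1 / (4 * k ^ 2)) * max 0 (k / 16 + e) ≤ (1 / (4 * k ^ 2)) * (k / 8) :=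
      mul_le_mul_of_nonneg_left h0 hDpos.le
    have h2 : (1 / (4 * k ^ 2)) * (k / 8) = 1 / (32 * k) := by field_simp; norm_num
    have h3 : 1 / (4 * k) - 1 / (32 * k) - 1 / (8 * k) = 3 / (32 * k) := by field_simp; norm_num
    have h4 : 0 < 3 / (32 * k) := by positivity
    linarith
  have ht' : (1 + a + 1 / (8 * k)) * phi n l ≤ tau n l :=
    (mul_le_mul_of_nonneg_right hs hf.le).trans ht
  have hspos : 0 < 1 + a + 1 / (8 * k) := by positivity
  have cA := case3A P rfl rfl hLeq he2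
  have cB := case3B P rfl rfl hLeq he1 he2
  exact growth_lemma r1 r2 hf ht' hspos hL0 (by linarith) (by linarith) cA cB

end Pool.Agent.U324.Feyn
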